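import Pool.Agent.H21.CV.Targets

/-!
Row DVD: divisibility of the determinant.
-/

set_option autoImplicit false

open Finset MvPolynomial Pool.Agent.H31.RZ Pool.Agent.H21.CV

namespace Pool.Agent.H76.CV

theorem cpm_map {R S : Type*} [CommRing R] [CommRing S] (φ : R →+* S) (p : Polynomial R) (e : ℕ) :
    (cpm p e).map φ = cpm (p.map φ) e := by
  ext a b
  rw [Matrix.map_apply]
  unfold cpm
  split_ifs
  · exact map_one φ
  · exact map_zero φ
  · rw [map_neg, Polynomial.coeff_map]

theorem cpm_pow_map {R S : Type*} [CommRing R] [CommRing S] (φ : R →+* S) (p : Polynomial R)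
    (e k : ℕ) (a b : Fin e) : φ (((cpm p e) ^ k) a b) = ((cpm (p.map φ) e) ^ k) a b := by
  have h1 := map_pow φ.mapMatrix (cpm p e) k
  have h2 := congrFun (congrFun h1 a) b
  rw [RingHom.mapMatrix_apply, RingHom.mapMatrix_apply, cpm_map] at h2
  exact h2

theorem MF_map {S : Type*} [CommRing S] {m : ℕ} (F : MvPolynomial (Fin (m + 2)) ℤ) (s t : ℤ)
    (p : Fin m → Polynomial ℤ) (e : Fin m → ℕ) :
    (MF F s t p e).map (Int.castRingHom S) =
      MF F (s : S) (t : S) (fun i => (p i).map (Int.castRingHom S)) e := by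
  ext β γ
  rw [Matrix.map_apply]
  unfold MF
  rw [map_sum]
  refine Finset.sum_congr rfl fun μ _ => ?_
  rw [map_mul, map_mul, map_mul, map_pow, map_pow, map_prod]
  congr 1
  exact Finset.prod_congr rfl fun i _ => cpm_pow_map _ _ _ _ _ _

theorem pf_DVD (hKRN : T_KRN) : T_DVD := by
  classical
  intro q m F s t p e η he hmon hdeg hη hF
  by_cases hq : q = 1
  · rw [hq]
    exact one_dvd _
  have hnt : Nontrivial (ZMod q) := by
    rcases q with _ | _ | q
    · exact inferInstanceAs (Nontrivial ℤ)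
    · exact absurd rfl hq
    · have : Fact (1 < q + 1 + 1) := ⟨by omega⟩
      exact ZMod.nontrivial _
  have h1 := hKRN (ZMod q) m F (s : ZMod q) (t : ZMod q)
    (fun i => (p i).map (Int.castRingHom (ZMod q))) e η he (fun i => (hmon i).map _)
    (fun i => by
      rw [(hmon i).natDegree_map]
      exact hdeg i) hη
  rw [hF, ← MF_map] at h1
  obtain ⟨M, hM⟩ : ∃ M, M = (MF F s t p e).map (Int.castRingHom (ZMod q)) := ⟨_, rfl⟩
  obtain ⟨v, hv⟩ : ∃ v : ((i : Fin m) → Fin (e i)) → ZMod q, v = fun β => ∏ i, η i ^ (β i : ℕ) :=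
    ⟨_, rfl⟩
  have h2 : Matrix.vecMul v M = 0 := by
    rw [hM, hv, h1]
    funext β
    rw [zero_mul]
    rfl
  have h3 : Matrix.vecMul v (M * M.adjugate) = 0 := by
    rw [← Matrix.vecMul_vecMul, h2, Matrix.zero_vecMul]
  rw [Matrix.mul_adjugate, Matrix.vecMul_smul, Matrix.vecMul_one] at h3
  have h4 := congrFun h3 (fun i => (⟨0, he i⟩ : Fin (e i)))
  rw [Pi.smul_apply, hv, smul_eq_mul] at h4
  simp only [pow_zero, Finset.prod_const_one, mul_one, Pi.zero_apply] at h4
  have h5 : (Int.castRingHom (ZMod q)) (MF F s t p e).det = 0 := by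
    rw [RingHom.map_det, RingHom.mapMatrix_apply, ← hM]
    exact h4
  rw [← CharP.intCast_eq_zero_iff (ZMod q) q]
  exact h5

end Pool.Agent.H76.CV
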