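import Pool.Agent.H21.CV.Targets

/-!
Row LIN: counting along lines.
-/

set_option autoImplicit false

open Finset MvPolynomial Pool.Agent.H31.RZ Pool.Agent.H21.CV

namespace Pool.Agent.H76.CV

theorem pf_LIN : T_LIN := by
  classical
  intro n d
  refine ⟨7 ^ NN n d, Nat.one_le_pow _ _ (by norm_num), ?_⟩
  intro H B L g A hH hg hg0 hBH hL
  obtain ⟨hghom, hgc⟩ := mem_FF.1 hg
  -- the largest coefficient
  have hsup : g.support.Nonempty := by
    rw [Finset.nonempty_iff_ne_empty]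
    intro h
    exact hg0 (MvPolynomial.support_eq_empty.1 h)
  obtain ⟨μ₀, hμ₀, hmax⟩ := Finset.exists_max_image g.support (fun μ => |g.coeff μ|) hsup
  have hc0 : g.coeff μ₀ ≠ 0 := MvPolynomial.mem_support_iff.1 hμ₀
  obtain ⟨c, hc⟩ : ∃ c : ℤ, c = g.coeff μ₀ := ⟨_, rfl⟩
  rw [← hc] at hc0
  have hmax' : ∀ μ, |g.coeff μ| ≤ |c| := by
    intro μ
    by_cases h : μ ∈ g.support
    · rw [hc]
      exact hmax μ h
    · rw [MvPolynomial.notMem_support_iff.1 h, abs_zero]
      exact abs_nonneg _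
  have hcB : |c| ≤ B := by rw [hc]; exact hgc μ₀
  have hμM : μ₀ ∈ Mon n d := by
    by_contra h
    exact hc0 (hc.trans (hghom.coeff_eq_zero fun h' => h (mem_Mon.2 h')))
  obtain ⟨ν, hν⟩ : ∃ ν : Mon n d, ν.1 = μ₀ := ⟨⟨μ₀, hμM⟩, rfl⟩
  -- the reduction
  obtain ⟨qq, hqq⟩ : ∃ qq : MvPolynomial (Fin (n + 1)) ℤ → ℤ, qq = fun f => f.coeff μ₀ / c :=
    ⟨_, rfl⟩
  obtain ⟨red, hred⟩ : ∃ red : MvPolynomial (Fin (n + 1)) ℤ → MvPolynomial (Fin (n + 1)) ℤ,
    red = fun f => f - C (qq f) * g := ⟨_, rfl⟩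
  obtain ⟨P, hP⟩ : ∃ P : Finset (MvPolynomial (Fin (n + 1)) ℤ), P =
    (Fintype.piFinset fun μ : Mon n d => if μ = ν then Finset.Ico (0 : ℤ) |c| else
      Finset.Icc (-((3 * H : ℕ) : ℤ)) ((3 * H : ℕ) : ℤ)).map ⟨pol, pol_inj n d⟩ := ⟨_, rfl⟩
  have hPcard : P.card ≤ B * (7 * H) ^ (NN n d - 1) := by
    rw [hP, Finset.card_map, Fintype.card_piFinset, ← Finset.mul_prod_erase univ _
      (Finset.mem_univ ν), if_pos rfl, Int.card_Ico, sub_zero]
    refine Nat.mul_le_mul ?_ ?_
    · rw [Int.toNat_le]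
      exact hcB
    · refine (Finset.prod_le_pow_card _ _ (7 * H) fun μ hμ => ?_).trans (le_of_eq ?_)
      · rw [if_neg (Finset.ne_of_mem_erase hμ), Int.card_Icc]
        rw [Int.toNat_le]
        push_cast
        omega
      · rw [Finset.card_erase_of_mem (Finset.mem_univ _), Finset.card_univ, Fintype.card_coe]
        rfl
  obtain ⟨S, hS⟩ : ∃ S : Finset (MvPolynomial (Fin (n + 1)) ℤ), S =
    (FF n d H).filter fun f => f ∈ A := ⟨_, rfl⟩
  have hSet : {f | f ∈ FF n d H ∧ f ∈ A} = (S : Set (MvPolynomial (Fin (n + 1)) ℤ)) := by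
    rw [hS]
    ext f
    simp
  rw [hSet, Set.ncard_coe_finset]
  have hmaps : ∀ f ∈ S, red f ∈ P := by
    intro f hf
    rw [hS, Finset.mem_filter] at hf
    obtain ⟨hfhom, hfc⟩ := mem_FF.1 hf.1
    have hr1 := Int.emod_nonneg (f.coeff μ₀) hc0
    have hr2 := Int.emod_lt_abs (f.coeff μ₀) hc0
    have hr3 := Int.emod_add_mul_ediv (f.coeff μ₀) c
    have hcoef : ∀ μ, (red f).coeff μ = f.coeff μ - qq f * g.coeff μ := by
      intro μ
      rw [hred]
      simp only [MvPolynomial.coeff_sub, MvPolynomial.coeff_C_mul]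
    have hq : qq f = f.coeff μ₀ / c := by rw [hqq]
    have hredhom : (red f).IsHomogeneous d := by
      rw [hred]
      refine hfhom.sub ?_
      have := (isHomogeneous_C (Fin (n + 1)) (qq f)).mul hghom
      rwa [zero_add] at this
    have hqb : |qq f| * |c| ≤ 2 * H := by
      rw [← abs_mul, hq]
      have h1 : f.coeff μ₀ / c * c = f.coeff μ₀ - f.coeff μ₀ % c := by linarith
      rw [h1]
      have h2 := hfc μ₀
      have h3 : (B : ℤ) ≤ H := by exact_mod_cast hBH
      rw [abs_le] at h2 ⊢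
      constructor <;> linarith [h2.1, h2.2]
    rw [hP, Finset.mem_map]
    refine ⟨fun μ => (red f).coeff μ.1, ?_, ?_⟩
    · rw [Fintype.mem_piFinset]
      intro μ
      split_ifs with h
      · rw [h, hν, hcoef, hq, ← hc, Finset.mem_Ico]
        constructor <;> linarith
      · rw [Finset.mem_Icc, ← abs_le, hcoef]
        have h1 : |f.coeff μ.1 - qq f * g.coeff μ.1| ≤ |f.coeff μ.1| + |qq f| * |g.coeff μ.1| := by
          rw [← abs_mul]
          exact abs_sub _ _
        have h2 : |qq f| * |g.coeff μ.1| ≤ |qq f| * |c| :=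
          mul_le_mul_of_nonneg_left (hmax' _) (abs_nonneg _)
        have h3 := hfc μ.1
        push_cast
        linarith
    · simp only [Function.Embedding.coeFn_mk]
      ext μ
      by_cases hμ : μ ∈ Mon n d
      · exact coeff_pol _ ⟨μ, hμ⟩
      · rw [(pol_hom _).coeff_eq_zero fun h => hμ (mem_Mon.2 h),
          hredhom.coeff_eq_zero fun h => hμ (mem_Mon.2 h)]
  have hfib : ∀ b ∈ P, (S.filter fun f => red f = b).card ≤ L := by
    intro b _
    obtain ⟨hfin, hle⟩ := hL b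
    refine le_trans ?_ hle
    rw [← Set.ncard_coe_finset]
    have hrec : ∀ f, f = red f + C (qq f) * g := by
      intro f
      rw [hred]
      simp only
      ring
    refine Set.ncard_le_ncard_of_injOn qq ?_ ?_ hfin
    · intro f hf
      have h1 := Finset.mem_filter.1 (Finset.mem_coe.1 hf)
      have h2 := h1.1
      rw [hS, Finset.mem_filter] at h2
      have h3 : b + C (qq f) * g = f := by
        rw [← h1.2]
        exact (hrec f).symm
      rw [Set.mem_ofPred_eq, h3]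
      exact h2
    · intro f hf f' hf' h
      have h1 := (Finset.mem_filter.1 (Finset.mem_coe.1 hf)).2
      have h2 := (Finset.mem_filter.1 (Finset.mem_coe.1 hf')).2
      rw [hrec f, hrec f', h1, h2, h]
  have h1 := Finset.card_le_mul_card_image_of_maps_to hmaps L hfib
  refine h1.trans ?_
  have h2 : (7 * H) ^ (NN n d - 1) ≤ 7 ^ NN n d * H ^ (NN n d - 1) := by
    rw [mul_pow]
    exact Nat.mul_le_mul_right _ (Nat.pow_le_pow_right (by norm_num) (Nat.sub_le _ _))
  calc L * P.card ≤ L * (B * (7 * H) ^ (NN n d - 1)) := Nat.mul_le_mul_left _ hPcard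
    _ ≤ L * (B * (7 ^ NN n d * H ^ (NN n d - 1))) :=
        Nat.mul_le_mul_left _ (Nat.mul_le_mul_left _ h2)
    _ = 7 ^ NN n d * L * B * H ^ (NN n d - 1) := by ring

end Pool.Agent.H76.CV
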